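import Mathlib.Combinatorics.SimpleGraph.Connectivity.Connected
import Mathlib.Analysis.SpecialFunctions.Trigonometric.Arctan
import Mathlib.Data.Set.Card
import Mathlib.Tactic

/-!
# The realisable frustration parameters (MP_7aff4e_co)

`α ∈ (0, π/2)` is realisable iff `tan² α` is rational.
-/

namespace Pool.Agent.Results.MP_7aff4e_co.AllRationalTanSq

open Real

/-- The number of neighbours of `v` in `S`. -/
noncomputable def nbrs {V : Type} (G : SimpleGraph V) (S : Set V) (v : V) : ℕ :=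
  {w | G.Adj v w ∧ w ∈ S}.ncard

/-- The bipartition `S`, `Sᶜ` is equitable. -/
def Equitable {V : Type} (G : SimpleGraph V) (S : Set V) : Prop :=
  (∀ i ∈ S, ∀ i' ∈ S, nbrs G S i = nbrs G S i' ∧ nbrs G Sᶜ i = nbrs G Sᶜ i') ∧
    ∀ j ∈ Sᶜ, ∀ j' ∈ Sᶜ, nbrs G S j = nbrs G S j' ∧ nbrs G Sᶜ j = nbrs G Sᶜ j'

/-- The linear degree condition for the bipartition `S`, `Sᶜ` with parameters `(μ₁, μ₂, r)`. -/
def LinearCondition {V : Type} (G : SimpleGraph V) (S : Set V) (μ₁ μ₂ r : ℝ) : Prop :=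
  (∀ i ∈ S, -(nbrs G S i : ℝ) + μ₁ * nbrs G Sᶜ i = r) ∧
    ∀ j ∈ Sᶜ, -(nbrs G Sᶜ j : ℝ) + μ₂ * nbrs G S j = r

/-- `α` is realisable. -/
def Realisable (α : ℝ) : Prop :=
  α ∈ Set.Ioo 0 (π / 2) ∧ ∃ (V : Type) (_ : Finite V) (G : SimpleGraph V) (S : Set V)
    (μ₁ μ₂ r : ℝ), G.Connected ∧ S.Nonempty ∧ Sᶜ.Nonempty ∧ ¬ Equitable G S ∧
    LinearCondition G S μ₁ μ₂ r ∧ |μ₁ + μ₂| < 2 ∧ μ₂ < μ₁ ∧
    α = arctan (√(4 - (μ₁ + μ₂) ^ 2) / (μ₁ - μ₂))

/-! ### Rationality -/

theorem exists_crossing {V : Type} {G : SimpleGraph V} (hc : G.Connected) {S : Set V}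
    (h1 : S.Nonempty) (h2 : Sᶜ.Nonempty) : ∃ i ∈ S, ∃ j ∈ Sᶜ, G.Adj i j := by
  obtain ⟨a, ha⟩ := h1
  obtain ⟨b, hb⟩ := h2
  obtain ⟨w⟩ := hc.preconnected a b
  induction w with
  | nil => exact absurd ha hb
  | @cons u v w h p ih =>
    by_cases hv : v ∈ S
    · exact ih hv hb
    · exact ⟨u, ha, v, hv, h⟩

/-- From two different degree pairs on one side, the parameter of that side and `r` are
rational. -/
theorem rational_of_ne {a b a' b' : ℕ} {μ r : ℝ} (h1 : -(a : ℝ) + μ * b = r)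
    (h2 : -(a' : ℝ) + μ * b' = r) (hne : ¬ (a = a' ∧ b = b')) :
    (∃ q : ℚ, μ = q) ∧ ∃ q : ℚ, r = q := by
  have hb : (b : ℝ) - b' ≠ 0 := by
    intro h
    have hb' : (b : ℝ) = b' := by linarith
    apply hne
    refine ⟨?_, by exact_mod_cast hb'⟩
    rw [hb'] at h1
    have : (a : ℝ) = a' := by linarith
    exact_mod_cast this
  have hμ : μ = ((((a : ℚ) - a') / ((b : ℚ) - b') : ℚ) : ℝ) := by
    push_cast
    rw [eq_div_iff hb]
    linarith
  refine ⟨⟨_, hμ⟩, ⟨-(a : ℚ) + (((a : ℚ) - a') / ((b : ℚ) - b')) * b, ?_⟩⟩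
  rw [← h1, hμ]
  push_cast
  ring

/-- One equation with a nonzero coefficient and rational `r` gives a rational parameter. -/
theorem rational_of_r {a b : ℕ} {μ r : ℝ} (h : -(a : ℝ) + μ * b = r) (hb : 0 < b)
    (hr : ∃ q : ℚ, r = q) : ∃ q : ℚ, μ = q := by
  obtain ⟨q, hq⟩ := hr
  refine ⟨(q + a) / b, ?_⟩
  push_cast
  have : (b : ℝ) ≠ 0 := by positivity
  rw [eq_div_iff this, ← hq, ← h]
  ring

theorem nbrs_pos {V : Type} [Finite V] {G : SimpleGraph V} {S : Set V} {v w : V}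
    (h : G.Adj v w) (hw : w ∈ S) : 0 < nbrs G S v := by
  unfold nbrs
  rw [Set.ncard_pos (Set.toFinite _)]
  exact ⟨w, h, hw⟩

theorem tanSq_rational {α : ℝ} (h : Realisable α) : ∃ q : ℚ, tan α ^ 2 = q := by
  obtain ⟨_, V, _, G, S, μ₁, μ₂, r, hc, hS, hS', hne, ⟨hl1, hl2⟩, habs, hlt, hα⟩ := h
  obtain ⟨i, hi, j, hj, hij⟩ := exists_crossing hc hS hS'
  have hμ : (∃ q : ℚ, μ₁ = q) ∧ ∃ q : ℚ, μ₂ = q := by
    unfold Equitable at hne
    rw [not_and_or] at hne
    rcases hne with hne | hne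
    · push Not at hne
      obtain ⟨x, hx, y, hy, hxy⟩ := hne
      obtain ⟨h1, h2⟩ := rational_of_ne (hl1 x hx) (hl1 y hy) (fun h => hxy h.1 h.2)
      exact ⟨h1, rational_of_r (hl2 j hj) (nbrs_pos hij.symm hi) h2⟩
    · push Not at hne
      obtain ⟨x, hx, y, hy, hxy⟩ := hne
      obtain ⟨h1, h2⟩ := rational_of_ne (hl2 x hx) (hl2 y hy) (fun h => hxy h.2 h.1)
      exact ⟨rational_of_r (hl1 i hi) (nbrs_pos hij hj) h2, h1⟩
  obtain ⟨⟨p, hp⟩, ⟨q, hq⟩⟩ := hμ
  refine ⟨(4 - (p + q) ^ 2) / (p - q) ^ 2, ?_⟩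
  rw [hα, tan_arctan, div_pow, sq_sqrt]
  · rw [hp, hq]
    push_cast
    rfl
  · have := abs_lt.1 habs
    nlinarith [this.1, this.2]

/-! ### The construction -/

section Construction

variable (n Q : ℕ)

/-- The vertex set of the construction. -/
abbrev W := (Fin (n + 1) × Fin (Q + 1)) ⊕ ((Fin (n + 1) × Fin Q) ⊕ Fin (Q * n - 1))

/-- The adjacency of the construction. -/
def adj : W n Q → W n Q → Prop
  | .inl p, .inl q => p.1 ≠ q.1
  | .inl p, .inr (.inl q) => p.1 = q.1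
  | .inr (.inl q), .inl p => p.1 = q.1
  | .inr (.inl _), .inr (.inr _) => True
  | .inr (.inr _), .inr (.inl _) => True
  | _, _ => False

/-- The graph of the construction. -/
def Gr : SimpleGraph (W n Q) where
  Adj := adj n Q
  symm := ⟨by
    rintro (p | p | p) (q | q | q) h
    · exact Ne.symm h
    · exact h
    · exact h
    · exact h
    · exact h
    · exact h
    · exact h
    · exact h
    · exact h⟩
  loopless := ⟨by
    rintro (p | p | p) h
    · exact h rfl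
    · exact h
    · exact h⟩

/-- The first part. -/
def S : Set (W n Q) := Set.range Sum.inl

variable {n Q}

theorem ncard_image {α β : Type*} {f : α → β} (hf : Function.Injective f) (s : Set α) :
    (f '' s).ncard = s.ncard := Set.ncard_image_of_injective s hf

theorem d11 (p : Fin (n + 1) × Fin (Q + 1)) :
    nbrs (Gr n Q) (S n Q) (.inl p) = n * (Q + 1) := by
  have h : {w | (Gr n Q).Adj (.inl p) w ∧ w ∈ S n Q} =
      Sum.inl '' (({p.1}ᶜ : Set (Fin (n + 1))) ×ˢ (Set.univ : Set (Fin (Q + 1)))) := by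
    ext (w | w | w)
    · constructor
      · rintro ⟨h1, _⟩
        exact ⟨w, ⟨fun h => h1 h.symm, trivial⟩, rfl⟩
      · rintro ⟨w', ⟨h1, _⟩, h2⟩
        cases h2
        exact ⟨fun h => h1 h.symm, ⟨w, rfl⟩⟩
    · constructor
      · rintro ⟨_, ⟨w', h⟩⟩
        cases h
      · rintro ⟨w', _, h⟩
        cases h
    · constructor
      · rintro ⟨_, ⟨w', h⟩⟩
        cases h
      · rintro ⟨w', _, h⟩
        cases h
  unfold nbrs
  rw [h, ncard_image Sum.inl_injective, Set.ncard_prod, Set.ncard_univ, Set.ncard_compl,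
    Set.ncard_singleton]
  simp

theorem d12 (p : Fin (n + 1) × Fin (Q + 1)) :
    nbrs (Gr n Q) (S n Q)ᶜ (.inl p) = Q := by
  have h : {w | (Gr n Q).Adj (.inl p) w ∧ w ∈ (S n Q)ᶜ} =
      (fun x => Sum.inr (Sum.inl x)) ''
        (({p.1} : Set (Fin (n + 1))) ×ˢ (Set.univ : Set (Fin Q))) := by
    ext (w | w | w)
    · constructor
      · rintro ⟨_, h⟩
        exact absurd ⟨w, rfl⟩ h
      · rintro ⟨w', _, h⟩
        cases h
    · constructor
      · rintro ⟨h1, _⟩
        exact ⟨w, ⟨(show p.1 = w.1 from h1).symm, trivial⟩, rfl⟩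
      · rintro ⟨w', ⟨h1, _⟩, h2⟩
        cases h2
        exact ⟨(show w.1 = p.1 from h1).symm, by rintro ⟨x, hx⟩; cases hx⟩
    · constructor
      · rintro ⟨h, _⟩
        exact absurd h id
      · rintro ⟨w', _, h⟩
        cases h
  unfold nbrs
  rw [h, ncard_image (fun a b hab => Sum.inl_injective (Sum.inr_injective hab)), Set.ncard_prod,
    Set.ncard_univ, Set.ncard_singleton]
  simp

theorem d21 (p : Fin (n + 1) × Fin Q) :
    nbrs (Gr n Q) (S n Q) (.inr (.inl p)) = Q + 1 := by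
  have h : {w | (Gr n Q).Adj (.inr (.inl p)) w ∧ w ∈ S n Q} =
      Sum.inl '' (({p.1} : Set (Fin (n + 1))) ×ˢ (Set.univ : Set (Fin (Q + 1)))) := by
    ext (w | w | w)
    · constructor
      · rintro ⟨h1, _⟩
        exact ⟨w, ⟨h1, trivial⟩, rfl⟩
      · rintro ⟨w', ⟨h1, _⟩, h2⟩
        cases h2
        exact ⟨h1, ⟨w, rfl⟩⟩
    · constructor
      · rintro ⟨_, ⟨w', h⟩⟩
        cases h
      · rintro ⟨w', _, h⟩
        cases h
    · constructor
      · rintro ⟨_, ⟨w', h⟩⟩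
        cases h
      · rintro ⟨w', _, h⟩
        cases h
  unfold nbrs
  rw [h, ncard_image Sum.inl_injective, Set.ncard_prod, Set.ncard_univ, Set.ncard_singleton]
  simp

theorem d22 (p : Fin (n + 1) × Fin Q) :
    nbrs (Gr n Q) (S n Q)ᶜ (.inr (.inl p)) = Q * n - 1 := by
  have h : {w | (Gr n Q).Adj (.inr (.inl p)) w ∧ w ∈ (S n Q)ᶜ} =
      (fun x => Sum.inr (Sum.inr x)) '' (Set.univ : Set (Fin (Q * n - 1))) := by
    ext (w | w | w)
    · constructor
      · rintro ⟨_, h⟩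
        exact absurd ⟨w, rfl⟩ h
      · rintro ⟨w', _, h⟩
        cases h
    · constructor
      · rintro ⟨h, _⟩
        exact absurd h id
      · rintro ⟨w', _, h⟩
        cases h
    · constructor
      · rintro ⟨h, _⟩
        exact ⟨w, trivial, rfl⟩
      · rintro _
        exact ⟨trivial, by rintro ⟨x, hx⟩; cases hx⟩
  unfold nbrs
  rw [h, ncard_image (fun a b hab => Sum.inr_injective (Sum.inr_injective hab)), Set.ncard_univ]
  simp

theorem d31 (z : Fin (Q * n - 1)) : nbrs (Gr n Q) (S n Q) (.inr (.inr z)) = 0 := by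
  have h : {w | (Gr n Q).Adj (.inr (.inr z)) w ∧ w ∈ S n Q} = ∅ := by
    ext (w | w | w)
    · constructor
      · rintro ⟨h, _⟩
        exact absurd h id
      · intro h
        exact absurd h id
    · constructor
      · rintro ⟨_, ⟨w', h⟩⟩
        cases h
      · intro h
        exact absurd h id
    · constructor
      · rintro ⟨_, ⟨w', h⟩⟩
        cases h
      · intro h
        exact absurd h id
  unfold nbrs
  rw [h, Set.ncard_empty]

theorem d32 (z : Fin (Q * n - 1)) :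
    nbrs (Gr n Q) (S n Q)ᶜ (.inr (.inr z)) = (n + 1) * Q := by
  have h : {w | (Gr n Q).Adj (.inr (.inr z)) w ∧ w ∈ (S n Q)ᶜ} =
      (fun x => Sum.inr (Sum.inl x)) '' (Set.univ : Set (Fin (n + 1) × Fin Q)) := by
    ext (w | w | w)
    · constructor
      · rintro ⟨_, h⟩
        exact absurd ⟨w, rfl⟩ h
      · rintro ⟨w', _, h⟩
        cases h
    · constructor
      · rintro ⟨h, _⟩
        exact ⟨w, trivial, rfl⟩
      · rintro _
        exact ⟨trivial, by rintro ⟨x, hx⟩; cases hx⟩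
    · constructor
      · rintro ⟨h, _⟩
        exact absurd h id
      · rintro ⟨w', _, h⟩
        cases h
  unfold nbrs
  rw [h, ncard_image (fun a b hab => Sum.inl_injective (Sum.inr_injective hab)), Set.ncard_univ]
  simp

theorem gr_connected (hQ : 2 ≤ Q) (hn : 1 ≤ n) : (Gr n Q).Connected := by
  have hM : 0 < Q * n - 1 := by
    have : 2 * 1 ≤ Q * n := Nat.mul_le_mul hQ hn
    omega
  let z : W n Q := .inr (.inr ⟨0, hM⟩)
  have hA : ∀ p : Fin (n + 1) × Fin Q, (Gr n Q).Reachable z (.inr (.inl p)) := by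
    intro p
    exact SimpleGraph.Adj.reachable (show (Gr n Q).Adj z (.inr (.inl p)) from trivial)
  have h : ∀ v, (Gr n Q).Reachable z v := by
    rintro (p | p | p)
    · refine (hA (p.1, ⟨0, by omega⟩)).trans ?_
      exact SimpleGraph.Adj.reachable
        (show (Gr n Q).Adj (.inr (.inl (p.1, ⟨0, by omega⟩))) (.inl p) from rfl)
    · exact hA p
    · refine (hA (0, ⟨0, by omega⟩)).trans ?_
      exact SimpleGraph.Adj.reachable
        (show (Gr n Q).Adj (.inr (.inl (0, ⟨0, by omega⟩))) (.inr (.inr p)) from trivial)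
  have : Nonempty (W n Q) := ⟨z⟩
  exact ⟨fun u v => (h u).symm.trans (h v)⟩

theorem gr_linear (hQ : 2 ≤ Q) (hn : 1 ≤ n) :
    LinearCondition (Gr n Q) (S n Q) (((n : ℝ) - Q) / Q) (-1) (-((n + 1) * Q)) := by
  have hM : 1 ≤ Q * n := by
    have : 2 * 1 ≤ Q * n := Nat.mul_le_mul hQ hn
    omega
  have hQ' : (Q : ℝ) ≠ 0 := by
    have : (0 : ℝ) < Q := by exact_mod_cast (by omega : 0 < Q)
    exact this.ne'
  constructor
  · rintro i ⟨p, rfl⟩
    rw [d11, d12]
    push_cast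
    field_simp
    ring
  · rintro (p | p | p) hp
    · exact absurd ⟨p, rfl⟩ hp
    · rw [d21, d22, Nat.cast_sub hM]
      push_cast
      ring
    · rw [d31, d32]
      push_cast
      ring

theorem gr_not_equitable (hQ : 2 ≤ Q) (hn : 1 ≤ n) : ¬ Equitable (Gr n Q) (S n Q) := by
  have hM : 0 < Q * n - 1 := by
    have : 2 * 1 ≤ Q * n := Nat.mul_le_mul hQ hn
    omega
  intro h
  have h1 := (h.2 (.inr (.inl (0, ⟨0, by omega⟩))) (by rintro ⟨x, hx⟩; cases hx)
    (.inr (.inr ⟨0, hM⟩)) (by rintro ⟨x, hx⟩; cases hx)).1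
  rw [d21, d31] at h1
  omega

end Construction

theorem realisable_of_tanSq {α : ℝ} (hα : α ∈ Set.Ioo 0 (π / 2)) {q : ℚ}
    (hq : tan α ^ 2 = q) : Realisable α := by
  have htan : 0 < tan α := tan_pos_of_pos_of_lt_pi_div_two hα.1 hα.2
  have hqpos : 0 < q := by
    have : (0 : ℝ) < q := by rw [← hq]; positivity
    exact_mod_cast this
  have hnum : 0 < q.num := Rat.num_pos.2 hqpos
  obtain ⟨a, ha⟩ : ∃ a : ℕ, q.num = a := ⟨q.num.toNat, by omega⟩
  have ha0 : 0 < a := by omega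
  have hb0 : 0 < q.den := q.den_pos
  set b := q.den with hb
  have hqab : (q : ℝ) = a / b := by
    rw [Rat.cast_def, ha]
    push_cast
    rfl
  have haR : (0 : ℝ) < a := by exact_mod_cast ha0
  have hbR : (0 : ℝ) < b := by exact_mod_cast hb0
  refine ⟨hα, W (4 * b) (a + b), inferInstance, Gr (4 * b) (a + b), S (4 * b) (a + b),
    ((((4 * b : ℕ) : ℝ)) - ((a + b : ℕ) : ℝ)) / ((a + b : ℕ) : ℝ), -1, _,
    gr_connected (by omega) (by omega), ?_, ?_, gr_not_equitable (by omega) (by omega),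
    gr_linear (by omega) (by omega), ?_, ?_, ?_⟩
  · exact ⟨.inl (0, 0), ⟨_, rfl⟩⟩
  · refine ⟨.inr (.inl (0, ⟨0, by omega⟩)), ?_⟩
    rintro ⟨x, hx⟩
    cases hx
  · push_cast
    rw [abs_lt]
    constructor
    · rw [← sub_pos]
      have : (4 * (b : ℝ) - (a + b)) / (a + b) + -1 - -2 = (4 * b) / (a + b) := by
        field_simp
        ring
      rw [this]
      positivity
    · rw [← sub_pos]
      have : 2 - ((4 * (b : ℝ) - (a + b)) / (a + b) + -1) = (4 * a) / (a + b) := by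
        field_simp
        ring
      rw [this]
      positivity
  · push_cast
    rw [← sub_pos]
    have : (4 * (b : ℝ) - (a + b)) / (a + b) - -1 = (4 * b) / (a + b) := by
      field_simp
      ring
    rw [this]
    positivity
  · have h1 : √(4 - (((((4 * b : ℕ) : ℝ)) - ((a + b : ℕ) : ℝ)) / ((a + b : ℕ) : ℝ) + -1) ^ 2) /
        (((((4 * b : ℕ) : ℝ)) - ((a + b : ℕ) : ℝ)) / ((a + b : ℕ) : ℝ) - -1) = tan α := by
      push_cast
      have h2 : (4 * (b : ℝ) - (a + b)) / (a + b) - -1 = (4 * b) / (a + b) := by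
        field_simp
        ring
      have h3 : 4 - ((4 * (b : ℝ) - (a + b)) / (a + b) + -1) ^ 2 =
          (tan α * ((4 * b) / (a + b))) ^ 2 := by
        rw [mul_pow, hq, hqab]
        field_simp
        ring
      rw [h2, h3, sqrt_sq (by positivity)]
      field_simp
    rw [h1, arctan_tan]
    · have := hα.1
      have := pi_pos
      linarith
    · exact hα.2

/-- The realisable parameters are exactly the `α ∈ (0, π/2)` with `tan² α` rational. -/
theorem result : {α : ℝ | Realisable α} =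
    {α : ℝ | α ∈ Set.Ioo 0 (π / 2) ∧ ∃ q : ℚ, tan α ^ 2 = q} := by
  ext α
  constructor
  · intro h
    exact ⟨h.1, tanSq_rational h⟩
  · rintro ⟨h1, q, hq⟩
    exact realisable_of_tanSq h1 hq

end Pool.Agent.Results.MP_7aff4e_co.AllRationalTanSq
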